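import Pool.Agent.V11214.KOneSpace

set_option autoImplicit false

namespace Pool.Agent.Results.MP_b12a75_gt.StarNotEmbedded

open Pool.Agent.V11214.KOne

/-- There is a compact Hausdorff space `X` with a countable dense subset `E` which is
`K₁*`-embedded in `X` (every bounded function of the first functional Lebesgue class on `E` extends
to a bounded one on `X`) but not `K₁`-embedded in `X`. -/
theorem result : ∃ (X : Type) (_ : TopologicalSpace X) (E : Set X), CompactSpace X ∧ T2Space X ∧
    E.Countable ∧ Dense E ∧ K1StarEmbedded E ∧ ¬ K1Embedded E :=
  main

end Pool.Agent.Results.MP_b12a75_gt.StarNotEmbedded
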